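import Pool.Agent.Helper36_X1.Stmts2

/-! LN2: a word which makes negative exactly the roots of `J` outside the span of `K`. -/

open scoped BigOperators

noncomputable section

namespace Pool.Agent.PP.X1.H17

open Pool.Agent.PP.X1

variable {ℓ : ℕ} {G : Type} [Group G] (R : RGD ℓ G)

/-- the coordinates with respect to the simple roots -/
theorem exists_coord : ∃ f : Fin R.r → (R.E →ₗ[ℝ] ℝ), ∀ l m, f l (R.a m) = if m = l then 1 else 0 := by
  classical
  have h : ∀ l : Fin R.r, ∃ g : R.E →ₗ[ℝ] ℝ, ∀ m, g (R.a m) = if m = l then 1 else 0 := by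
    intro l
    obtain ⟨g, hg⟩ := ((Module.Basis.span R.base).coord l).exists_extend
    refine ⟨g, fun m => ?_⟩
    have hm : R.a m ∈ Submodule.span ℝ (Set.range R.a) := Submodule.subset_span ⟨m, rfl⟩
    have h1 := LinearMap.congr_fun hg ⟨R.a m, hm⟩
    have h2 : (Module.Basis.span R.base) m = ⟨R.a m, hm⟩ := by
      apply Subtype.ext
      rw [Module.Basis.span_apply]
    rw [← h2] at h1
    have h3 : g (R.a m) = (Module.Basis.span R.base).coord l ((Module.Basis.span R.base) m) := by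
      rw [← h1, h2]
      rfl
    rw [h3, Module.Basis.coord_apply, Module.Basis.repr_self, Finsupp.single_apply]
  choose f hf using h
  exact ⟨f, hf⟩

section

variable {f : Fin R.r → (R.E →ₗ[ℝ] ℝ)} (hf : ∀ l m, f l (R.a m) = if m = l then 1 else 0)

include hf

theorem f_sum (k : Fin R.r → ℝ) (l : Fin R.r) : f l (∑ i, k i • R.a i) = k l := by
  classical
  rw [map_sum]
  simp only [map_smul, hf, smul_eq_mul, mul_ite, mul_one, mul_zero, Finset.sum_ite_eq',
    Finset.mem_univ, if_true]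

theorem f_nonneg {b : R.E} (hb : b ∈ R.pos) (l : Fin R.r) : 0 ≤ f l b := by
  obtain ⟨k, hk, h⟩ := hb.2
  rw [h, f_sum R hf]
  exact hk l

theorem f_eq {b : R.E} (hb : b ∈ R.pos) : b = ∑ i, f i b • R.a i := by
  obtain ⟨k, hk, h⟩ := hb.2
  have h1 : ∀ i, f i b = k i := fun i => by rw [h, f_sum R hf]
  simp only [h1]
  exact h

theorem f_lev {K : Finset (Fin R.r)} {b : R.E} (hb : b ∈ R.lev K) {l : Fin R.r} (hl : l ∉ K) :
    f l b = 0 := by
  have h1 : Submodule.span ℝ (R.a '' (K : Set (Fin R.r))) ≤ LinearMap.ker (f l) := by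
    rw [Submodule.span_le]
    rintro _ ⟨i, hi, rfl⟩
    rw [SetLike.mem_coe, LinearMap.mem_ker, hf, if_neg]
    rintro rfl
    exact hl hi
  exact h1 hb.2

theorem lev_of_f {K : Finset (Fin R.r)} {b : R.E} (hb : b ∈ R.pos) (h : ∀ l ∉ K, f l b = 0) :
    b ∈ R.lev K := by
  refine ⟨hb.1, ?_⟩
  rw [f_eq R hf hb]
  refine Submodule.sum_mem _ fun i _ => ?_
  by_cases hi : i ∈ K
  · exact Submodule.smul_mem _ _ (Submodule.subset_span ⟨i, hi, rfl⟩)
  · rw [h i hi, zero_smul]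
    exact Submodule.zero_mem _

end

/-- the negative of a root is a root -/
theorem neg_mem (horb : OrbStmt) {b : R.E} (hb : b ∈ R.Φ) : -b ∈ R.Φ := by
  obtain ⟨w, i, c, hc, rfl, hci⟩ := horb ℓ G R b hb
  have h1 : -(c • R.sw w (R.a i)) = R.sw w (R.s i (c • R.a i)) := by
    rw [R.s_smul, R.s_self, smul_neg, R.sw_neg, R.sw_smul]
  rw [h1]
  exact R.sw_mem (R.s_mem hci)

theorem neg_pos (horb : OrbStmt) {b : R.E} (hb : b ∈ R.pos) : -b ∈ R.neg :=
  ⟨neg_mem R horb hb.1, by rw [neg_neg]; exact hb.2⟩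

theorem neg_neg' (horb : OrbStmt) {b : R.E} (hb : b ∈ R.neg) : -b ∈ R.pos :=
  ⟨neg_mem R horb hb.1, hb.2⟩

theorem neg_lev (horb : OrbStmt) {K : Finset (Fin R.r)} {b : R.E} (hb : b ∈ R.lev K) :
    -b ∈ R.lev K :=
  ⟨neg_mem R horb hb.1, Submodule.neg_mem _ hb.2⟩

theorem ln2 (hlng : LngStmt) (horb : OrbStmt) : Ln2Stmt := by
  classical
  intro ℓ G _ R J K hKJ
  obtain ⟨hJ1, wJ, hwJ, hJ2⟩ := hlng ℓ G R J
  obtain ⟨hK1, wK, hwK, hK2⟩ := hlng ℓ G R K
  have hw : ∀ i ∈ wJ ++ wK, i ∈ J := by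
    intro i hi
    rcases List.mem_append.mp hi with h | h
    · exact hwJ i h
    · exact hKJ (hwK i h)
  have hwKJ : ∀ i ∈ wK, i ∈ J := fun i hi => hKJ (hwK i hi)
  -- the longest word of `J` on the negative roots
  have hJn : ∀ b ∈ R.neg, b ∈ R.lev J → R.sw wJ b ∈ R.pos := by
    intro b hb hbJ
    have h1 := hJ2 (-b) ⟨neg_neg' R horb hb, neg_lev R horb hbJ⟩
    rw [R.sw_neg] at h1
    have h2 := neg_neg' R horb h1
    rwa [neg_neg] at h2
  have part1 : ∀ b ∈ R.pos ∩ R.lev J, R.sw (wJ ++ wK) b ∈ R.pos ↔ b ∈ R.lev K := by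
    rintro b ⟨hb, hbJ⟩
    rw [R.sw_append]
    constructor
    · intro h
      by_contra hbK
      have h1 := ((hK1 wK hwK).2 b).mpr ⟨hb, hbK⟩
      have h2 := ((hJ1 wK hwKJ).1 b).mpr hbJ
      exact R.not_pos_neg h (hJ2 _ ⟨h1.1, h2⟩)
    · intro hbK
      exact hJn _ (hK2 b ⟨hb, hbK⟩) (((hJ1 wK hwKJ).1 b).mpr hbJ)
  refine ⟨wJ ++ wK, hw, part1, ?_⟩
  intro i hi
  obtain ⟨f, hf⟩ := exists_coord R
  obtain ⟨w, hwdef⟩ : ∃ w, w = wJ ++ wK := ⟨_, rfl⟩
  rw [← hwdef] at part1 hw ⊢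
  have haK : ∀ (K : Finset (Fin R.r)), ∀ i ∈ K, R.a i ∈ R.lev K := fun K i hi =>
    ⟨R.mem i, Submodule.subset_span ⟨i, hi, rfl⟩⟩
  have hc : R.sw w (R.a i) ∈ R.pos := (part1 _ ⟨R.a_pos i, haK J i (hKJ hi)⟩).mpr (haK K i hi)
  have hcJ : R.sw w (R.a i) ∈ R.lev J := ((hJ1 w hw).1 _).mpr (haK J i (hKJ hi))
  obtain ⟨k, hk⟩ : ∃ k : Fin R.r → ℝ, ∀ j, k j = f j (R.sw w (R.a i)) := ⟨_, fun _ => rfl⟩
  have hk0 : ∀ j, 0 ≤ k j := fun j => by rw [hk]; exact f_nonneg R hf hc j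
  have hkJ : ∀ j, j ∉ J → k j = 0 := fun j hj => by rw [hk]; exact f_lev R hf hcJ hj
  have hsum : R.sw w (R.a i) = ∑ j, k j • R.a j := by
    simp only [hk]
    exact f_eq R hf hc
  have hrev : ∀ i ∈ w.reverse, i ∈ J := fun i hi => hw i (List.mem_reverse.mp hi)
  have hsw_sum : ∀ (v : List (Fin R.r)) (k : Fin R.r → ℝ) (x : Fin R.r → R.E),
      R.sw v (∑ j, k j • x j) = ∑ j, k j • R.sw v (x j) := by
    intro v k x
    let g : R.E →+ R.E := AddMonoidHom.mk' (R.sw v) (R.sw_add v)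
    have h1 : g (∑ j, k j • x j) = ∑ j, g (k j • x j) := map_sum g _ _
    have h2 : ∀ y, g y = R.sw v y := fun _ => rfl
    rw [h2] at h1
    rw [h1]
    refine Finset.sum_congr rfl fun j _ => ?_
    rw [h2, R.sw_smul]
  have hai : R.a i = ∑ j, k j • R.sw w.reverse (R.a j) := by
    rw [← hsw_sum, ← hsum, R.sw_reverse_sw]
  -- the roots `w⁻¹ a j`
  have hr : ∀ j, R.sw w.reverse (R.a j) ∈ R.Φ := fun j => R.sw_mem (R.mem j)
  have hrJ : ∀ j ∈ J, R.sw w.reverse (R.a j) ∈ R.lev J := fun j hj =>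
    ((hJ1 _ hrev).1 _).mpr (haK J j hj)
  have hposK : ∀ j ∈ J, R.sw w.reverse (R.a j) ∈ R.pos → R.sw w.reverse (R.a j) ∈ R.lev K := by
    intro j hj h
    refine (part1 _ ⟨h, hrJ j hj⟩).mp ?_
    rw [R.sw_sw_reverse]
    exact R.a_pos j
  have hneg : ∀ j ∈ J, R.sw w.reverse (R.a j) ∈ R.neg → -R.sw w.reverse (R.a j) ∉ R.lev K := by
    intro j hj h h'
    have h1 := (part1 _ ⟨neg_neg' R horb h, neg_lev R horb (hrJ j hj)⟩).mpr h'
    rw [R.sw_neg, R.sw_sw_reverse] at h1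
    exact R.not_pos_neg h1 (neg_pos R horb (R.a_pos j))
  -- `k j > 0` implies that `w⁻¹ a j` is positive
  have hkp : ∀ j, k j ≠ 0 → R.sw w.reverse (R.a j) ∈ R.pos := by
    intro j hj
    have hjJ : j ∈ J := by
      by_contra h
      exact hj (hkJ j h)
    rcases R.pos_or_neg (hr j) with h | h
    · exact h
    · exfalso
      refine hneg j hjJ h (lev_of_f R hf (neg_neg' R horb h) fun l hl => ?_)
      have h1 := congrArg (f l) hai
      rw [map_sum, f_lev R hf (haK K i hi) hl] at h1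
      have h2 : ∀ m ∈ Finset.univ, 0 ≤ -(f l (k m • R.sw w.reverse (R.a m))) := by
        intro m _
        rw [map_smul, smul_eq_mul]
        by_cases hm : k m = 0
        · rw [hm, zero_mul, neg_zero]
        · have hmJ : m ∈ J := by
            by_contra h
            exact hm (hkJ m h)
          rcases R.pos_or_neg (hr m) with h' | h'
          · rw [f_lev R hf (hposK m hmJ h') hl, mul_zero, neg_zero]
          · have h3 := f_nonneg R hf (neg_neg' R horb h') l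
            rw [map_neg] at h3
            have h4 := hk0 m
            nlinarith
      have h3 : ∑ m, -(f l (k m • R.sw w.reverse (R.a m))) = 0 := by
        rw [Finset.sum_neg_distrib, ← h1, neg_zero]
      have h4 := (Finset.sum_eq_zero_iff_of_nonneg h2).mp h3 j (Finset.mem_univ j)
      rw [map_smul, smul_eq_mul, neg_eq_zero] at h4
      rw [map_neg, (mul_eq_zero.mp h4).resolve_left hj, neg_zero]
  obtain ⟨j, hj⟩ : ∃ j, k j ≠ 0 := by
    by_contra hcon
    push Not at hcon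
    apply R.ne0 _ hc.1
    rw [hsum]
    exact Finset.sum_eq_zero fun j _ => by rw [hcon j, zero_smul]
  have hjJ : j ∈ J := by
    by_contra h
    exact hj (hkJ j h)
  have hfl : ∀ l, l ≠ i → f l (R.sw w.reverse (R.a j)) = 0 := by
    intro l hl
    have h1 := congrArg (f l) hai
    rw [map_sum, hf, if_neg (Ne.symm hl)] at h1
    have h2 : ∀ m ∈ Finset.univ, 0 ≤ f l (k m • R.sw w.reverse (R.a m)) := by
      intro m _
      rw [map_smul, smul_eq_mul]
      by_cases hm : k m = 0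
      · rw [hm, zero_mul]
      · exact mul_nonneg (hk0 m) (f_nonneg R hf (hkp m hm) l)
    have h4 := (Finset.sum_eq_zero_iff_of_nonneg h2).mp h1.symm j (Finset.mem_univ j)
    rw [map_smul, smul_eq_mul] at h4
    exact (mul_eq_zero.mp h4).resolve_left hj
  obtain ⟨c, hcdef⟩ : ∃ c, c = f i (R.sw w.reverse (R.a j)) := ⟨_, rfl⟩
  have hrj : R.sw w.reverse (R.a j) = c • R.a i := by
    have h1 := f_eq R hf (hkp j hj)
    rw [h1, Finset.sum_eq_single i, ← hcdef]
    · intro l _ hl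
      rw [hfl l hl, zero_smul]
    · intro h
      exact absurd (Finset.mem_univ i) h
  have hc0 : 0 < c := by
    rcases (f_nonneg R hf (hkp j hj) i).lt_or_eq with h | h
    · rw [hcdef]; exact h
    · exfalso
      apply R.ne0 _ (hr j)
      rw [hrj, hcdef, ← h, zero_smul]
  have hc1 : 1 ≤ c := R.short i c hc0 (by rw [← hrj]; exact hr j)
  have hwi : R.sw w (R.a i) = c⁻¹ • R.a j := by
    have h1 := congrArg (R.sw w) hrj
    rw [R.sw_sw_reverse, R.sw_smul] at h1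
    rw [h1, smul_smul, inv_mul_cancel₀ hc0.ne', one_smul]
  have hc2 : 1 ≤ c⁻¹ := R.short j c⁻¹ (inv_pos.mpr hc0) (by rw [← hwi]; exact hc.1)
  have hc3 : c = 1 := by
    refine le_antisymm ?_ hc1
    rwa [one_le_inv₀ hc0] at hc2
  refine ⟨j, hjJ, ?_⟩
  rw [hwi, hc3, inv_one, one_smul]

end Pool.Agent.PP.X1.H17
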