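import Pool.Agent.Helper36_X1.Stmts3
import Pool.Agent.Helper27_BN.G1

/-! NSX: the alternating sum vanishes for the nearly simple groups over groups of Lie type. -/

open scoped BigOperators

noncomputable section

namespace Pool.Agent.PP.X1.H17

open Pool.Agent.PP Pool.Agent.PP.X1 Pool.Agent.Helper51_AWC Pool.Agent.Helper79_WRA

/-- the root group datum of the preimage of the socle -/
theorem exists_rgd (hlft : LftStmt) (ℓ : ℕ) [Fact ℓ.Prime] (S : Type) [Group S] [Finite S]
    (hS : NonabSimple S) (hdvd : ℓ ∣ Nat.card S) (hL : LieType ℓ S) (D : Type) [Group D] [Finite D]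
    (hop : opCore ℓ D = ⊥) (hns : NearlySimpleL ℓ D S) :
    ∃ (M : Subgroup D) (R : RGD ℓ M), RgD ℓ M R := by
  obtain ⟨T₀, hT₀, hcent, ⟨φ⟩, -, hidx⟩ := hns
  have hsurj : Function.Surjective (QuotientGroup.mk' (Subgroup.center D)) :=
    QuotientGroup.mk'_surjective _
  set M : Subgroup D := T₀.comap (QuotientGroup.mk' (Subgroup.center D)) with hM
  have hMn : M.Normal := hT₀.comap _
  have hZM : Subgroup.center D ≤ M := by
    intro z hz
    have h1 : QuotientGroup.mk' (Subgroup.center D) z = 1 := (QuotientGroup.eq_one_iff z).2 hz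
    rw [hM, Subgroup.mem_comap, h1]
    exact one_mem _
  have hidx' : ¬ ℓ ∣ M.index := by
    rwa [hM, Subgroup.index_comap_of_surjective _ hsurj]
  let π : M →* S := φ.toMonoidHom.comp
    ((QuotientGroup.mk' (Subgroup.center D)).subgroupComap T₀)
  have hπ : Function.Surjective π :=
    φ.surjective.comp (MonoidHom.subgroupComap_surjective_of_surjective _ _ hsurj)
  have hker : ∀ m : M, π m = 1 ↔ (m : D) ∈ Subgroup.center D := by
    intro m
    have h1 : π m = φ ((QuotientGroup.mk' (Subgroup.center D)).subgroupComap T₀ m) := rfl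
    rw [h1, EmbeddingLike.map_eq_one_iff, ← QuotientGroup.eq_one_iff (m : D), Subtype.ext_iff]
    rfl
  have hkc : π.ker ≤ Subgroup.center M := by
    intro m hm
    have h1 := (hker m).mp hm
    rw [Subgroup.mem_center_iff] at h1 ⊢
    intro g
    apply Subtype.ext
    exact h1 g
  have hcop : ¬ ℓ ∣ Nat.card π.ker := by
    intro h
    apply BN.H27.center_cop (Fact.out : ℓ.Prime) hop
    refine h.trans ?_
    have hinj : Function.Injective (fun m : π.ker => (⟨((m : M) : D), (hker m).mp m.2⟩ :
        Subgroup.center D)) := by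
      intro m m' hmm
      have h1 := congrArg Subtype.val hmm
      exact Subtype.ext (Subtype.ext h1)
    let f : π.ker →* Subgroup.center D :=
      { toFun := fun m => ⟨((m : M) : D), (hker m).mp m.2⟩
        map_one' := rfl
        map_mul' := fun _ _ => rfl }
    exact Subgroup.card_dvd_of_injective f hinj
  obtain ⟨R, hRT, hRU⟩ := hlft ℓ S M hL π hπ hkc hcop
  refine ⟨M, R, hMn, hidx', hZM, fun z hz => hRT z ((hker z).mpr hz), hRU hdvd, ?_, ?_, ?_⟩
  · intro g hg
    have h10 : (QuotientGroup.mk' (Subgroup.center D) g) ∈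
        Subgroup.centralizer (T₀ : Set (D ⧸ Subgroup.center D)) := by
      rw [Subgroup.mem_centralizer_iff]
      intro t ht
      obtain ⟨m, rfl⟩ := hsurj t
      have h11 := (Subgroup.mem_centralizer_iff.mp hg) m ht
      rw [← map_mul, ← map_mul, h11]
    rw [hcent, Subgroup.mem_bot] at h10
    exact (QuotientGroup.eq_one_iff g).1 h10
  · intro K hK
    have hsimple : IsSimpleGroup S := hS.1
    rcases (hK.map π hπ).eq_bot_or_eq_top with h | h
    · left
      intro x hx
      have h1 : π x ∈ K.map π := ⟨x, hx, rfl⟩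
      rw [h, Subgroup.mem_bot] at h1
      exact (hker x).mp h1
    · right
      intro x
      have h1 : π x ∈ K.map π := by rw [h]; exact Subgroup.mem_top _
      obtain ⟨y, hy, hyx⟩ := h1
      refine ⟨y, hy, (y : D)⁻¹ * x, ?_, by group⟩
      have h2 : π (y⁻¹ * x) = 1 := by rw [map_mul, map_inv, hyx, inv_mul_cancel]
      exact (hker _).mp h2
  · obtain ⟨-, a, b, hab⟩ := hS
    obtain ⟨x, rfl⟩ := hπ a
    obtain ⟨y, rfl⟩ := hπ b
    refine ⟨x, y, fun h => hab ?_⟩
    rw [← map_mul, ← map_mul, h]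

theorem nsx (hlft : LftStmt) (hyyx : YyxStmt) : NsxStmt := by
  intro ℓ F _ hF S _ _ hS hdvd hL D _ _ hop hns e he hz hpos
  have : Fact ℓ.Prime := ⟨hF.prime⟩
  obtain ⟨M, R, hR⟩ := exists_rgd hlft ℓ S hS hdvd hL D hop hns
  exact hyyx ℓ F hF D M R hR e he hz hpos

end Pool.Agent.PP.X1.H17
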