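import Pool.Agent.Helper36_X1.Basic
import Pool.Agent.Helper36_X1.Stmts1

/-!
# X1, module TRV: the opposite root group
-/

set_option autoImplicit false

open scoped BigOperators

noncomputable section

namespace Pool.Agent.PP.X1.H17

open Pool.Agent.PP.X1 RGD

section

variable {ℓ : ℕ} {G : Type} [Group G] (R : RGD ℓ G)

theorem t_iff {t : G} (ht : t ∈ R.T) {b : R.E} (hb : b ∈ R.Φ) {x : G} :
    t * x * t⁻¹ ∈ R.X b ↔ x ∈ R.X b := by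
  refine ⟨fun h => ?_, R.tX t ht b hb x⟩
  have h1 := R.tX t⁻¹ (R.T.inv_mem ht) b hb _ h
  have h2 : t⁻¹ * (t * x * t⁻¹) * t⁻¹⁻¹ = x := by group
  rwa [h2] at h1

theorem nt_iff {i : Fin R.r} {t : G} (ht : t ∈ R.T) {b : R.E} (hb : b ∈ R.Φ) {x : G} :
    (R.n i * t) * x * (R.n i * t)⁻¹ ∈ R.X (R.s i b) ↔ x ∈ R.X b := by
  have h1 : (R.n i * t) * x * (R.n i * t)⁻¹ = R.n i * (t * x * t⁻¹) * (R.n i)⁻¹ := by group
  rw [h1, R.nX' hb, t_iff R ht hb]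

end

/-- TRV -/
theorem trv (hrk : Rk1Stmt) : TrvStmt := by
  intro ℓ hℓ G _ _ R i φ hX hT hV v hv
  by_cases hv1 : v = 1
  · rw [hv1, map_one]
  obtain ⟨h1, h2, h3⟩ := hrk ℓ G R i
  obtain ⟨y, hy, t, ht, z, hz, hvy, hti⟩ := h3 v hv hv1
  obtain ⟨s, hs⟩ : ∃ s, s = R.n i * t := ⟨_, rfl⟩
  rw [← hs] at hvy
  have ha := R.mem i
  have hna := R.neg_a_mem i
  have s1 : ∀ x, s * x * s⁻¹ ∈ R.X (-R.a i) ↔ x ∈ R.X (R.a i) := by
    intro x
    rw [hs, ← R.s_self i]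
    exact nt_iff R ht ha
  have s2 : ∀ x, s * x * s⁻¹ ∈ R.X (R.a i) ↔ x ∈ R.X (-R.a i) := by
    intro x
    have e1 : R.s i (-R.a i) = R.a i := by rw [R.s_neg, R.s_self, neg_neg]
    have e2 := nt_iff R (i := i) ht hna (x := x)
    rw [e1] at e2
    rw [hs]
    exact e2
  have hφv : φ v = y * φ s * z := by
    rw [hvy, map_mul, map_mul, hX y hy, hX z hz]
  obtain ⟨m, hm⟩ : ∃ m, m = s⁻¹ * φ s := ⟨_, rfl⟩
  have hm1 : ∀ x ∈ R.X (R.a i), m * x * m⁻¹ ∈ R.X (R.a i) := by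
    intro x hx
    rw [← s1]
    have e1 : s * (m * x * m⁻¹) * s⁻¹ = φ (s * x * s⁻¹) := by
      rw [map_mul, map_mul, map_inv, hX x hx, hm]
      group
    rw [e1, hV, s1]
    exact hx
  have hm2 : ∀ x ∈ R.X (-R.a i), m * x * m⁻¹ ∈ R.X (-R.a i) := by
    intro x hx
    rw [← s2]
    obtain ⟨x', rfl⟩ : ∃ x', φ x' = x := φ.surjective x
    rw [hV] at hx
    have e1 : s * (m * φ x' * m⁻¹) * s⁻¹ = φ (s * x' * s⁻¹) := by
      rw [map_mul, map_mul, map_inv, hm]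
      group
    have e2 : s * x' * s⁻¹ ∈ R.X (R.a i) := (s2 x').2 hx
    rw [e1, hX _ e2]
    exact e2
  have hXL : R.X (R.a i) ≤ R.T ⊔ (R.X (R.a i) ⊔ R.X (-R.a i)) := le_sup_left.trans le_sup_right
  have hVL : R.X (-R.a i) ≤ R.T ⊔ (R.X (R.a i) ⊔ R.X (-R.a i)) := le_sup_right.trans le_sup_right
  have hmL : m ∈ R.T ⊔ (R.X (R.a i) ⊔ R.X (-R.a i)) := by
    rw [hm]
    apply Subgroup.mul_mem
    · apply Subgroup.inv_mem
      rw [hs]
      apply Subgroup.mul_mem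
      · exact (le_sup_right : _ ≤ R.T ⊔ (R.X (R.a i) ⊔ R.X (-R.a i))) (R.nmem i)
      · exact (le_sup_left : _ ≤ R.T ⊔ (R.X (R.a i) ⊔ R.X (-R.a i))) ht
    · have e1 : φ s = y⁻¹ * φ v * z⁻¹ := by
        rw [hφv]
        group
      rw [e1]
      exact Subgroup.mul_mem _ (Subgroup.mul_mem _ (Subgroup.inv_mem _ (hXL hy)) (hVL ((hV v).2 hv)))
        (Subgroup.inv_mem _ (hXL hz))
  have hmT := h2 m hmL hm1 hm2
  have hconj : v⁻¹ * φ v = z⁻¹ * m * z⁻¹⁻¹ := by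
    rw [hφv, hm]
    nth_rewrite 1 [hvy]
    group
  have hmem : z⁻¹ * m * z⁻¹⁻¹ ∈ R.X (-R.a i) := by
    rw [← hconj]
    exact Subgroup.mul_mem _ (Subgroup.inv_mem _ hv) ((hV v).2 hv)
  obtain ⟨k, hk⟩ := R.pgrp _ hna ⟨_, hmem⟩
  have hk' : m ^ ℓ ^ k = 1 := by
    have e1 := congrArg Subtype.val hk
    simp only [SubmonoidClass.mk_pow, OneMemClass.coe_one] at e1
    rw [conj_pow] at e1
    have e2 : z⁻¹ * m ^ ℓ ^ k = z⁻¹ := by
      have e3 := congrArg (fun u => u * z⁻¹) e1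
      simpa using e3
    exact mul_left_cancel (e2.trans (mul_one _).symm)
  have hm1' : m = 1 := by
    rw [← orderOf_eq_one_iff]
    have e1 : orderOf m ∣ Nat.card R.T := Subgroup.orderOf_dvd_natCard _ hmT
    have e2 : orderOf m ∣ ℓ ^ k := orderOf_dvd_of_pow_eq_one hk'
    have e3 : Nat.Coprime (ℓ ^ k) (Nat.card R.T) :=
      Nat.Coprime.pow_left k ((Nat.Prime.coprime_iff_not_dvd hℓ.out).2 R.cop)
    exact Nat.dvd_one.1 (e3.gcd_eq_one ▸ Nat.dvd_gcd e2 e1)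
  rw [hm1'] at hconj
  have e4 : v⁻¹ * φ v = 1 := by
    rw [hconj]
    group
  exact (inv_mul_eq_one.1 e4).symm

end Pool.Agent.PP.X1.H17
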